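import Pool.Agent.H15.Au4

/-! A real Banach space with no normal total extended biorthogonal system, without extra axioms. -/

set_option autoImplicit false

namespace Pool.Agent.Results.MP_735d18_an.NoTotal

open Pool.Agent.H15

universe u

theorem result : ∃ (X : Type) (_ : NormedAddCommGroup X) (_ : NormedSpace ℝ X),
    CompleteSpace X ∧ ∀ (I : Type u) (x : I → X) (f : I → X →L[ℝ] ℝ),
      (∀ i, f i (x i) = 1) → (∀ i j, i ≠ j → f i (x j) = 0) → (∀ i, ‖x i‖ = 1) →
      (∀ i, ‖f i‖ = 1) → ∃ y : X, y ≠ 0 ∧ ∀ i, f i y = 0 := by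
  obtain ⟨N, h1, h2⟩ := Au.main.{u}
  let X : Type := WithLp 1 Eq.E
  let q : X ≃ₗ[ℝ] Eq.E := WithLp.linearEquiv 1 ℝ Eq.E
  letI : Norm X := ⟨fun x => N (q x)⟩
  have core : NormedSpace.Core ℝ X :=
    { norm_nonneg := fun x => apply_nonneg N _
      norm_smul := fun c x => by
        show N (q (c • x)) = ‖c‖ * N (q x)
        rw [map_smul, map_smul_eq_mul]
      norm_triangle := fun x y => by
        show N (q (x + y)) ≤ N (q x) + N (q y)
        rw [map_add]; exact map_add_le_add N _ _
      norm_eq_zero_iff := fun x => ⟨fun h => q.map_eq_zero_iff.1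
        (norm_le_zero_iff.1 ((h1 _).1.trans (le_of_eq h))), fun h => by
          show N (q x) = 0
          rw [h, map_zero, map_zero]⟩ }
  letI : NormedAddCommGroup X := NormedAddCommGroup.ofCore core
  letI : NormedSpace ℝ X := NormedSpace.ofCore core
  have hn : ∀ x : X, ‖x‖ = N (q x) := fun _ => rfl
  let Q : X ≃L[ℝ] Eq.E := q.toContinuousLinearEquivOfBounds 1 3
    (fun x => by rw [one_mul, hn]; exact (h1 _).1)
    (fun y => by rw [hn, q.apply_symm_apply]; exact (h1 _).2)
  refine ⟨X, inferInstance, inferInstance,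
    (completeSpace_congr (e := Q.toEquiv) Q.isUniformEmbedding).2 inferInstance,
    fun I x f a b c d => ?_⟩
  obtain ⟨y, hy, hf⟩ := h2 I (fun i => Q (x i)) (fun i => (f i).comp Q.symm.toContinuousLinearMap)
    (fun i => by simpa using a i) (fun i j h => by simpa using b i j h) c fun i y => by
      have := (f i).le_opNorm (Q.symm y)
      rw [d, one_mul, hn] at this
      exact this
  exact ⟨Q.symm y, by simpa using hy, hf⟩

end Pool.Agent.Results.MP_735d18_an.NoTotal
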